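import Pool.Agent.Helper93.IA.StC

/-!
# IA module NST (MP_953b28_co): the graph outside the reservoir is nearly regular
-/

set_option autoImplicit false

namespace Pool.Agent.Helper22.IAC

open Pool.Agent.Helper93.IA Finset

private lemma up1 {α β : Type} [Fintype β] [DecidableEq α] [DecidableEq β]
    (A0 A QA : Finset (α × β)) (U1 : Finset α) (U2 : Finset β) (a : α) :
    m1 ((A \ ins A U1 U2) \ QA) univ a
      ≤ m1 A0 univ a + d1 (A0 \ A) a + U2.card + d1 QA a := by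
  rw [d1_eq, d1_eq]
  unfold m1
  have hsub : (univ.filter fun b => (a, b) ∉ (A \ ins A U1 U2) \ QA)
      ⊆ (((univ.filter fun b => (a, b) ∉ A0) ∪ (univ.filter fun b => (a, b) ∈ A0 \ A)) ∪ U2) ∪
        (univ.filter fun b => (a, b) ∈ QA) := by
    intro b hb
    simp only [mem_filter, mem_univ, true_and, mem_sdiff, mem_ins, mem_union] at hb ⊢
    by_contra hcon
    push Not at hcon
    obtain ⟨⟨⟨h1, h2⟩, h3⟩, h4⟩ := hcon
    exact hb ⟨⟨h2 h1, fun h => h3 h.2.2⟩, h4⟩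
  have h1 := Finset.card_le_card hsub
  have h2 := Finset.card_union_le (((univ.filter fun b => (a, b) ∉ A0) ∪
    (univ.filter fun b => (a, b) ∈ A0 \ A)) ∪ U2) (univ.filter fun b => (a, b) ∈ QA)
  have h3 := Finset.card_union_le ((univ.filter fun b => (a, b) ∉ A0) ∪
    (univ.filter fun b => (a, b) ∈ A0 \ A)) U2
  have h4 := Finset.card_union_le (univ.filter fun b => (a, b) ∉ A0)
    (univ.filter fun b => (a, b) ∈ A0 \ A)
  omega

private lemma up2 {α β : Type} [Fintype α] [DecidableEq α] [DecidableEq β]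
    (A0 A QA : Finset (α × β)) (U1 : Finset α) (U2 : Finset β) (b : β) :
    m2 ((A \ ins A U1 U2) \ QA) univ b
      ≤ m2 A0 univ b + d2 (A0 \ A) b + U1.card + d2 QA b := by
  rw [d2_eq, d2_eq]
  unfold m2
  have hsub : (univ.filter fun a => (a, b) ∉ (A \ ins A U1 U2) \ QA)
      ⊆ (((univ.filter fun a => (a, b) ∉ A0) ∪ (univ.filter fun a => (a, b) ∈ A0 \ A)) ∪ U1) ∪
        (univ.filter fun a => (a, b) ∈ QA) := by
    intro a ha
    simp only [mem_filter, mem_univ, true_and, mem_sdiff, mem_ins, mem_union] at ha ⊢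
    by_contra hcon
    push Not at hcon
    obtain ⟨⟨⟨h1, h2⟩, h3⟩, h4⟩ := hcon
    exact ha ⟨⟨h2 h1, fun h => h3 h.2.1⟩, h4⟩
  have h1 := Finset.card_le_card hsub
  have h2 := Finset.card_union_le (((univ.filter fun a => (a, b) ∉ A0) ∪
    (univ.filter fun a => (a, b) ∈ A0 \ A)) ∪ U1) (univ.filter fun a => (a, b) ∈ QA)
  have h3 := Finset.card_union_le ((univ.filter fun a => (a, b) ∉ A0) ∪
    (univ.filter fun a => (a, b) ∈ A0 \ A)) U1
  have h4 := Finset.card_union_le (univ.filter fun a => (a, b) ∉ A0)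
    (univ.filter fun a => (a, b) ∈ A0 \ A)
  omega

private lemma lo1 {α β : Type} [Fintype β] [DecidableEq α] [DecidableEq β]
    (A0 A QA : Finset (α × β)) (U1 : Finset α) (U2 : Finset β) (hA : A ⊆ A0) (a : α) :
    m1 A0 univ a ≤ m1 ((A \ ins A U1 U2) \ QA) univ a := by
  unfold m1
  apply Finset.card_le_card
  intro b hb
  simp only [mem_filter, mem_univ, true_and] at hb ⊢
  intro h
  exact hb (hA (Finset.sdiff_subset (Finset.sdiff_subset h)))

private lemma lo2 {α β : Type} [Fintype α] [DecidableEq α] [DecidableEq β]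
    (A0 A QA : Finset (α × β)) (U1 : Finset α) (U2 : Finset β) (hA : A ⊆ A0) (b : β) :
    m2 A0 univ b ≤ m2 ((A \ ins A U1 U2) \ QA) univ b := by
  unfold m2
  apply Finset.card_le_card
  intro a ha
  simp only [mem_filter, mem_univ, true_and] at ha ⊢
  intro h
  exact ha (hA (Finset.sdiff_subset (Finset.sdiff_subset h)))

private lemma arith (κ ε g ξ ρ e : ℝ) (n m : ℕ) (x y d1' d2' : ℕ) (hm : (m : ℝ) ≤ ξ * n)
    (hg : 0 ≤ g) (hξ : 0 ≤ ξ) (hρ : 0 ≤ ρ) (he : ε + g + ξ + 2 * ρ ≤ e)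
    (hlo : (κ - ε) * n ≤ x) (hhi : (x : ℝ) ≤ (κ + ε) * n) (h1 : (d1' : ℝ) ≤ g * n)
    (h2 : (d2' : ℝ) ≤ 2 * ρ * n) (hxy : x ≤ y) (hyx : y ≤ x + d1' + m + d2') :
    (κ - e) * n ≤ y ∧ (y : ℝ) ≤ (κ + e) * n := by
  have hn : (0 : ℝ) ≤ n := Nat.cast_nonneg n
  have hxy' : (x : ℝ) ≤ y := by exact_mod_cast hxy
  have hyx' : (y : ℝ) ≤ x + d1' + m + d2' := by exact_mod_cast hyx
  have hen : (ε + g + ξ + 2 * ρ) * n ≤ e * n := mul_le_mul_of_nonneg_right he hn
  have hgn : 0 ≤ g * n := mul_nonneg hg hn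
  have hξn : 0 ≤ ξ * n := mul_nonneg hξ hn
  have hρn : 0 ≤ ρ * n := mul_nonneg hρ hn
  constructor
  · nlinarith
  · nlinarith

/-- IA module NST -/
theorem hNST : StNST := by
  intro α β _ _ _ _ κ ε g ξ ρ e n m A0 A QA U1 U2 hA hBi hSm hU1 hU2 hm hQ hg hξ hρ he
  constructor
  · intro a _
    obtain ⟨hlo, hhi⟩ := hBi.1 a (Finset.mem_univ a)
    have h := up1 A0 A QA U1 U2 a
    rw [hU2] at h
    exact arith κ ε g ξ ρ e n m _ _ _ _ hm hg hξ hρ he hlo hhi (hSm.1 a) (hQ.1 a)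
      (lo1 A0 A QA U1 U2 hA a) h
  · intro b _
    obtain ⟨hlo, hhi⟩ := hBi.2 b (Finset.mem_univ b)
    have h := up2 A0 A QA U1 U2 b
    rw [hU1] at h
    exact arith κ ε g ξ ρ e n m _ _ _ _ hm hg hξ hρ he hlo hhi (hSm.2 b) (hQ.2 b)
      (lo2 A0 A QA U1 U2 hA b) h

end Pool.Agent.Helper22.IAC
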